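import Pool.Agent.Lib.MP_b4ba8e_al.Adm
import Pool.Agent.Lib.MP_b4ba8e_al.U.Fin
import Pool.Agent.Lib.MP_b4ba8e_al.U.Topo
import Pool.Agent.Lib.MP_b4ba8e_al.U.TreeB

/-!
# Nebbia's CCR conjecture, in the words of the problem

`T` is a locally finite tree in which every vertex has degree at least `3`, `Aut(T) = (T ≃g T)`
carries the topology of pointwise convergence on the vertices, the boundary of `T` is the set of
classes of geodesic rays. Every closed subgroup of `Aut(T)` acting `2`-transitively on the boundary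
is CCR and admissible.
-/

set_option autoImplicit false

open MeasureTheory Topology

namespace Pool.Agent.Results.MP_b4ba8e_al.NebbiaConjecture

universe u v

/-- The topology of pointwise convergence on the vertices on `Aut(T)`: the topology induced from
the product topology on the maps `V → V`, where `V` is discrete. -/
def autTopology {V : Type u} (T : SimpleGraph V) : TopologicalSpace (T ≃g T) :=
  TopologicalSpace.induced (fun (g : T ≃g T) (x : V) => g x)
    (@Pi.topologicalSpace V (fun _ => V) (fun _ => ⊥))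

/-- Geodesic rays of a tree: injective sequences of successively adjacent vertices. -/
structure Ray {V : Type u} (T : SimpleGraph V) where
  /-- the vertices -/
  toFun : ℕ → V
  inj : Function.Injective toFun
  adj : ∀ n, T.Adj (toFun n) (toFun (n + 1))

/-- Two rays are equivalent if they coincide after deleting finitely many vertices of each. -/
instance raySetoid {V : Type u} (T : SimpleGraph V) : Setoid (Ray T) where
  r r₁ r₂ := ∃ k m : ℕ, ∀ n, r₁.toFun (n + k) = r₂.toFun (n + m)
  iseqv :=
    { refl := fun _ => ⟨0, 0, fun _ => rfl⟩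
      symm := fun ⟨k, m, h⟩ => ⟨m, k, fun n => (h n).symm⟩
      trans := by
        rintro r₁ r₂ r₃ ⟨k, m, h⟩ ⟨k', m', h'⟩
        refine ⟨k' + k, m + m', fun n => ?_⟩
        rw [← add_assoc, h (n + k'), ← add_assoc, add_right_comm, h' (n + m)] }

/-- The boundary (set of ends) of a tree. -/
def Boundary {V : Type u} (T : SimpleGraph V) : Type u := Quotient (raySetoid T)

/-- The image of a ray under an automorphism. -/
def rayMap {V : Type u} {T : SimpleGraph V} (g : T ≃g T) (r : Ray T) : Ray T where
  toFun n := g (r.toFun n)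
  inj := g.injective.comp r.inj
  adj n := g.map_adj_iff.2 (r.adj n)

/-- The action of an automorphism on the boundary. -/
def boundaryMap {V : Type u} {T : SimpleGraph V} (g : T ≃g T) : Boundary T → Boundary T :=
  Quotient.map (rayMap g) (fun _ _ ⟨k, m, h⟩ => ⟨k, m, fun n => congrArg g (h n)⟩)

/-- `G` acts transitively on ordered pairs of distinct points of the boundary. -/
def TwoTransitive {V : Type u} {T : SimpleGraph V} (G : Subgroup (T ≃g T)) : Prop :=
  ∀ a b c d : Boundary T, a ≠ b → c ≠ d → ∃ g ∈ G, boundaryMap g a = c ∧ boundaryMap g b = d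

/-- Unitary representations of `G` on the Hilbert space `H`: strongly continuous homomorphisms to
the group of unitary operators (surjective linear isometries) of `H`. -/
structure UnitaryRep (G : Type u) [Group G] [TopologicalSpace G]
    (H : Type v) [NormedAddCommGroup H] [InnerProductSpace ℂ H] where
  /-- the homomorphism -/
  hom : G →* (H ≃ₗᵢ[ℂ] H)
  cont : ∀ x : H, Continuous (fun g : G => hom g x)

section

variable {G : Type u} [Group G] [TopologicalSpace G]
  {H : Type v} [NormedAddCommGroup H] [InnerProductSpace ℂ H]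

/-- `π` is irreducible: no closed invariant subspaces other than `0` and the whole space. -/
def UnitaryRep.Irreducible (π : UnitaryRep G H) : Prop :=
  ∀ K : Submodule ℂ H, IsClosed (K : Set H) → (∀ g : G, ∀ x ∈ K, π.hom g x ∈ K) →
    K = ⊥ ∨ K = ⊤

/-- The operator `π(f) = ∫ f(g) π(g) dμ(g)` exists (as a strong integral) and is compact. -/
def UnitaryRep.CompactAt [MeasurableSpace G] (π : UnitaryRep G H) (μ : Measure G)
    (f : G → ℂ) : Prop :=
  ∃ A : H →L[ℂ] H, (∀ x : H, Integrable (fun g => f g • π.hom g x) μ ∧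
    A x = ∫ g, f g • π.hom g x ∂μ) ∧ IsCompactOperator A

/-- The vectors of `H` fixed by `U` form a finite dimensional space. -/
def UnitaryRep.FixedFinite (π : UnitaryRep G H) (U : Subgroup G) : Prop :=
  ∃ F : Submodule ℂ H, FiniteDimensional ℂ F ∧ ∀ x : H, x ∈ F ↔ ∀ g ∈ U, π.hom g x = x

/-- The representation with values in the unitary group of the algebra `H →L[ℂ] H`. -/
noncomputable def UnitaryRep.toUnitary [CompleteSpace H] (π : UnitaryRep G H) :
    G →* unitary (H →L[ℂ] H) :=
  (Unitary.linearIsometryEquiv (𝕜 := ℂ) (H := H)).symm.toMonoidHom.comp π.hom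

theorem UnitaryRep.toUnitary_apply [CompleteSpace H] (π : UnitaryRep G H) (g : G) (x : H) :
    (π.toUnitary g : H →L[ℂ] H) x = π.hom g x := rfl

end

/-- The group `G` (with the Borel sets) is CCR: for every left Haar measure `μ`, every irreducible
unitary representation `π` and every integrable `f` the operator `π(f) = ∫ f(g) π(g) dμ(g)` is
compact. -/
def IsCCR (G : Type u) [Group G] [TopologicalSpace G] : Prop :=
  ∀ [MeasurableSpace G] [BorelSpace G] (μ : Measure G) [μ.IsHaarMeasure]
    (H : Type v) [NormedAddCommGroup H] [InnerProductSpace ℂ H] [CompleteSpace H]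
    (π : UnitaryRep G H), π.Irreducible → ∀ f : G → ℂ, Integrable f μ → π.CompactAt μ f

/-- The group `G` is admissible: in every irreducible unitary representation the vectors fixed by
an open subgroup form a finite dimensional space. -/
def IsAdmissible (G : Type u) [Group G] [TopologicalSpace G] : Prop :=
  ∀ (H : Type v) [NormedAddCommGroup H] [InnerProductSpace ℂ H] [CompleteSpace H]
    (π : UnitaryRep G H), π.Irreducible →
    ∀ U : Subgroup G, IsOpen (U : Set G) → π.FixedFinite U

section

variable {V : Type u} (T : SimpleGraph V)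

theorem continuous_eval_aux : @Continuous (T ≃g T) (V → V) (autTopology T)
    (@Pi.topologicalSpace V (fun _ => V) (fun _ => ⊥)) (fun g x => g x) :=
  continuous_induced_dom

/-- the sets `{g | g x = y}` are open -/
theorem isOpen_eval (x y : V) : IsOpen[autTopology T] {g : T ≃g T | g x = y} := by
  letI : TopologicalSpace V := ⊥
  haveI : DiscreteTopology V := ⟨rfl⟩
  letI := autTopology T
  have h : Continuous (fun g : T ≃g T => g x) :=
    (continuous_apply x).comp (continuous_eval_aux T)
  exact (isOpen_discrete ({y} : Set V)).preimage h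

/-- neighbourhoods in `Aut(T)` -/
theorem mem_nhds_aut (g : T ≃g T) (U : Set (T ≃g T)) :
    U ∈ @nhds _ (autTopology T) g ↔ ∃ F : Finset V, {h : T ≃g T | ∀ x ∈ F, h x = g x} ⊆ U := by
  letI : TopologicalSpace V := ⊥
  haveI : DiscreteTopology V := ⟨rfl⟩
  constructor
  · intro hU
    rw [autTopology, nhds_induced, Filter.mem_comap] at hU
    obtain ⟨t, ht, hU⟩ := hU
    rw [nhds_pi, Filter.mem_pi] at ht
    obtain ⟨I, hI, s, hs, hst⟩ := ht
    refine ⟨hI.toFinset, fun h hh => hU (hst ?_)⟩
    intro x hx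
    have h1 : h x = g x := hh x (hI.mem_toFinset.2 hx)
    show h x ∈ s x
    rw [h1]
    exact mem_of_mem_nhds (hs x)
  · rintro ⟨F, hF⟩
    letI := autTopology T
    refine Filter.mem_of_superset ?_ hF
    have h1 : {h : T ≃g T | ∀ x ∈ F, h x = g x} = ⋂ x ∈ F, {h : T ≃g T | h x = g x} := by
      ext h
      simp
    rw [h1]
    exact (isOpen_biInter_finset fun x _ => isOpen_eval T x (g x)).mem_nhds (by simp)

theorem isTopologicalGroup_aut : @IsTopologicalGroup (T ≃g T) (autTopology T) _ := by
  letI : TopologicalSpace V := ⊥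
  haveI : DiscreteTopology V := ⟨rfl⟩
  letI := autTopology T
  have hmk : ∀ {X : Type u} [TopologicalSpace X] (f : X → (T ≃g T)),
      (∀ x : V, Continuous fun a => f a x) → Continuous f := by
    intro X _ f hf
    exact continuous_induced_rng.2 (continuous_pi hf)
  refine { continuous_mul := ?_, continuous_inv := ?_ }
  · refine hmk _ fun x => ?_
    rw [continuous_discrete_rng]
    intro y
    rw [isOpen_iff_mem_nhds]
    rintro ⟨g, h⟩ hgh
    have h1 : {p : (T ≃g T) × (T ≃g T) | p.2 x = h x} ∩ {p | p.1 (h x) = y} ∈ 𝓝 (g, h) := by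
      refine Filter.inter_mem ?_ ?_
      · exact ((isOpen_eval T x (h x)).preimage continuous_snd).mem_nhds rfl
      · exact ((isOpen_eval T (h x) y).preimage continuous_fst).mem_nhds hgh
    refine Filter.mem_of_superset h1 ?_
    rintro ⟨g', h'⟩ ⟨h2, h3⟩
    have h2' : h' x = h x := h2
    have h3' : g' (h x) = y := h3
    show g' (h' x) = y
    rw [h2', h3']
  · refine hmk _ fun x => ?_
    rw [continuous_discrete_rng]
    intro y
    have : (fun a : T ≃g T => a⁻¹ x) ⁻¹' {y} = {g : T ≃g T | g y = x} := by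
      ext g
      show g.symm x = y ↔ g y = x
      constructor
      · rintro rfl
        exact g.apply_symm_apply x
      · rintro rfl
        exact g.symm_apply_apply y
    rw [this]
    exact isOpen_eval T y x

end

/-- **Nebbia's CCR conjecture.** -/
theorem result {V : Type u} (T : SimpleGraph V) (hT : T.IsTree)
    (hfin : ∀ x : V, (T.neighborSet x).Finite) (hdeg : ∀ x : V, 3 ≤ (T.neighborSet x).ncard)
    (G : Subgroup (T ≃g T)) (hG : IsClosed[autTopology T] (G : Set (T ≃g T)))
    (h2 : TwoTransitive G) :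
    @IsTopologicalGroup G ((autTopology T).induced Subtype.val) _ ∧
    @LocallyCompactSpace G ((autTopology T).induced Subtype.val) ∧
    @IsCCR.{u, v} G _ ((autTopology T).induced Subtype.val) ∧
    @IsAdmissible.{u, v} G _ ((autTopology T).induced Subtype.val) := by
  letI τ : TopologicalSpace (T ≃g T) := autTopology T
  haveI : IsTopologicalGroup (T ≃g T) := isTopologicalGroup_aut T
  have hgrp : IsTopologicalGroup G := inferInstance
  letI act : MulAction G V :=
    { smul := fun g x => (g : T ≃g T) x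
      one_smul := fun x => rfl
      mul_smul := fun g h x => rfl }
  have hsmul : ∀ (g : G) (x : V), g • x = (g : T ≃g T) x := fun _ _ => rfl
  haveI : FaithfulSMul G V := ⟨fun {g h} hgh => Subtype.ext (by ext x; exact hgh x)⟩
  have hadj : ∀ (g : G) (x y : V), T.Adj (g • x) (g • y) ↔ T.Adj x y :=
    fun g x y => (g : T ≃g T).map_adj_iff
  have hopen : ∀ x : V, IsOpen {g : G | g • x = x} := fun x =>
    (isOpen_eval T x x).preimage continuous_subtype_val
  have hbasis : ∀ U : Set G, U ∈ nhds (1 : G) →
      ∃ F : Finset V, {g : G | ∀ x ∈ F, g • x = x} ⊆ U := by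
    intro U hU
    rw [nhds_subtype_eq_comap, Filter.mem_comap] at hU
    obtain ⟨W, hW, hWU⟩ := hU
    obtain ⟨F, hF⟩ := (mem_nhds_aut T _ _).1 hW
    refine ⟨F, fun g hg => hWU (hF ?_)⟩
    intro x hx
    exact hg x hx
  have hclosed : ∀ σ : T ≃g T, (∀ F : Finset V, ∃ g : G, ∀ x ∈ F, g • x = σ x) →
      ∃ g : G, ∀ x : V, g • x = σ x := by
    intro σ hσ
    have h1 : σ ∈ closure (G : Set (T ≃g T)) := by
      rw [mem_closure_iff_nhds]
      intro U hU
      obtain ⟨F, hF⟩ := (mem_nhds_aut T _ _).1 hU
      obtain ⟨g, hg⟩ := hσ F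
      exact ⟨g, hF fun x hx => hg x hx, g.2⟩
    rw [hG.closure_eq] at h1
    exact ⟨⟨σ, h1⟩, fun _ => rfl⟩
  obtain ⟨hsc, ht2, hcomp, hW⟩ := Pool.MP_b4ba8e.U.topo T hT hfin hadj hopen hbasis hclosed
  obtain ⟨v⟩ : Nonempty V := hT.1.nonempty
  obtain ⟨a, L, hC⟩ := Pool.MP_b4ba8e.U.exists_cartan T hT hdeg hadj (G := G) (by
    intro r₁ r₂ s₁ s₂ hr₁ hr₁' hr₂ hr₂' hs₁ hs₁' hs₂ hs₂' hr hs
    obtain ⟨g, hg, e₁, e₂⟩ := h2 (Quotient.mk _ ⟨r₁, hr₁, hr₁'⟩) (Quotient.mk _ ⟨r₂, hr₂, hr₂'⟩)
      (Quotient.mk _ ⟨s₁, hs₁, hs₁'⟩) (Quotient.mk _ ⟨s₂, hs₂, hs₂'⟩)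
      (fun e => hr (Quotient.exact e)) (fun e => hs (Quotient.exact e))
    exact ⟨⟨g, hg⟩, Quotient.exact e₁, Quotient.exact e₂⟩) v
  have hadm : ∀ (H : Type v) [NormedAddCommGroup H] [InnerProductSpace ℂ H] [CompleteSpace H]
      (π : UnitaryRep G H), π.Irreducible →
      ∀ U : Set G, U ∈ nhds (1 : G) → ∃ W : Subgroup G, (W : Set G) ⊆ U ∧
        FiniteDimensional ℂ (Pool.MP_b4ba8e.fixedVec π.toUnitary W) := by
    intro H _ _ _ π hπ U hU
    obtain ⟨W, hWU, hWo, hWK, hWn⟩ := hW v U hU
    exact ⟨W, hWU, Pool.MP_b4ba8e.finiteDimensional_fixedVec (MulAction.stabilizer G v) (hopen v)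
      (hcomp v) a L hC W hWo hWK hWn π.toUnitary hπ⟩
  refine ⟨hgrp, (hcomp v).locallyCompactSpace_of_mem_nhds_of_group
    ((hopen v).mem_nhds (one_mem (MulAction.stabilizer G v))), ?_, ?_⟩
  · intro _ _ μ _ H _ _ _ π hπ f hf
    refine ⟨Pool.MP_b4ba8e.U.finOp μ π.toUnitary π.cont f hf, fun x =>
      ⟨Pool.MP_b4ba8e.U.fin_integrable μ π.toUnitary π.cont f hf x, rfl⟩, ?_⟩
    obtain ⟨A, hA, hA'⟩ := Pool.MP_b4ba8e.U.compact_of_admissible (MulAction.stabilizer G v)
      (hopen v) (hcomp v) μ π.toUnitary π.cont (hadm H π hπ) f hf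
    have hAe : Pool.MP_b4ba8e.U.finOp μ π.toUnitary π.cont f hf = A := by
      ext y
      refine ext_inner_left ℂ fun x => ?_
      rw [hA', Pool.MP_b4ba8e.U.finOp_apply,
        ← integral_inner (Pool.MP_b4ba8e.U.fin_integrable μ π.toUnitary π.cont f hf y)]
      refine integral_congr_ae (Filter.Eventually.of_forall fun g => ?_)
      show inner ℂ x (f g • (π.toUnitary g : H →L[ℂ] H) y) = _
      rw [inner_smul_right]
    rw [hAe]
    exact hA
  · intro H _ _ _ π hπ U hU
    obtain ⟨W, hWU, hWf⟩ := hadm H π hπ U (hU.mem_nhds (one_mem U))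
    refine ⟨Pool.MP_b4ba8e.fixedVec π.toUnitary U, ?_, fun x => Iff.rfl⟩
    exact Submodule.finiteDimensional_of_le (S₂ := Pool.MP_b4ba8e.fixedVec π.toUnitary W)
      (fun x hx g hg => hx g (hWU hg))

end Pool.Agent.Results.MP_b4ba8e_al.NebbiaConjecture
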